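import Pool.Agent.helper94.MF.Wave

/-!
# The potentials `f (m u - k · x) + h(x)` have minimal foliations of every slope
-/

set_option autoImplicit false

open Pool.Agent.helper94.MF
open scoped ContDiff NNReal

namespace Pool.Agent.Results.MP_9251a8_an.PlaneWaveFoliations

/-- Let `n ≥ 1`, `f` smooth of period `1` and not constant, `h` smooth of period `1` in each
variable, `m` a nonzero integer, `k` an integral vector. Then `V(u, x) = f (m u - k · x) + h(x)` is
smooth, has period `1` in `u` and each `x i`, is not independent of `u`, and has for EVERY slope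
`α` a minimal foliation; its leaves satisfy `∇u = p(u, x)` with `p` of period `1` in all variables
and Lipschitz, and smooth if `m α ≠ k` or if `f = M - q² / 2` with a smooth function `q ≥ 0` which
has a zero (for instance `q = sin² (π u)`). If `m α ≠ k` the leaves are periodic in the sense of
Moser and Bangert: `u(x + j) = u(x) + N` whenever `j` is integral and `α · j = N` is an integer. -/
theorem result {n : ℕ} (hn : 1 ≤ n) (f : ℝ → ℝ) (hf : ContDiff ℝ ∞ f)
    (hper : ∀ u, f (u + 1) = f u) (hnc : ∃ u, deriv f u ≠ 0) (h : (Fin n → ℝ) → ℝ)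
    (hh : ContDiff ℝ ∞ h)
    (hhper : ∀ (x : Fin n → ℝ) (i : Fin n), h (x + (Pi.single i (1 : ℝ) : Fin n → ℝ)) = h x)
    (m : ℤ) (hm : m ≠ 0) (k : Fin n → ℤ) :
    ContDiff ℝ ∞ (fun z : ℝ × (Fin n → ℝ) => wavePot f h m k z.1 z.2) ∧
    (∀ (u : ℝ) (x : Fin n → ℝ), wavePot f h m k (u + 1) x = wavePot f h m k u x) ∧
    (∀ (u : ℝ) (x : Fin n → ℝ) (i : Fin n),
      wavePot f h m k u (x + (Pi.single i (1 : ℝ) : Fin n → ℝ)) = wavePot f h m k u x) ∧
    (∃ (u : ℝ) (x : Fin n → ℝ), deriv (fun v => wavePot f h m k v x) u ≠ 0) ∧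
    ∀ α : Fin n → ℝ, ∃ (F : Set ((Fin n → ℝ) → ℝ)) (p : ℝ → (Fin n → ℝ) → (Fin n → ℝ)),
      MinFol (wavePot f h m k) α F ∧
      (∀ u ∈ F, ∀ x i, fderiv ℝ u x (Pi.single i (1 : ℝ)) = p (u x) x i) ∧
      (∀ u x, p (u + 1) x = p u x) ∧
      (∀ u x i, p u (x + (Pi.single i (1 : ℝ) : Fin n → ℝ)) = p u x) ∧
      (∃ K : ℝ≥0, LipschitzWith K (fun z : ℝ × (Fin n → ℝ) => p z.1 z.2)) ∧
      ((∃ i, m * α i ≠ k i) ∨ (∃ (q : ℝ → ℝ) (M : ℝ), ContDiff ℝ ∞ q ∧ (∀ u, 0 ≤ q u) ∧
        (∃ u, q u = 0) ∧ ∀ u, f u = M - q u ^ 2 / 2) →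
        ContDiff ℝ ∞ (fun z : ℝ × (Fin n → ℝ) => p z.1 z.2)) ∧
      ((∃ i, m * α i ≠ k i) → ∀ u ∈ F, ∀ (j : Fin n → ℤ) (N : ℤ), ∑ i, α i * j i = N →
        ∀ x, u (x + fun i => (j i : ℝ)) = u x + N) := by
  have hm' : (m : ℝ) ≠ 0 := by exact_mod_cast hm
  refine ⟨?_, ?_, ?_, ?_, fun α => exists_minFol_wave hn hf hper hh.continuous hm k α⟩
  · unfold wavePot
    fun_prop
  · intro u x
    unfold wavePot
    have h1 : (m : ℝ) * (u + 1) - ∑ i, (k i : ℝ) * x i =
        (m : ℝ) * u - ∑ i, (k i : ℝ) * x i + m := by ring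
    rw [h1, per_int hper]
  · intro u x i
    unfold wavePot
    have h1 : (m : ℝ) * u - (∑ j, (k j : ℝ) * x j + k i) =
        (m : ℝ) * u - ∑ j, (k j : ℝ) * x j + ((-k i : ℤ) : ℝ) := by
      push_cast
      ring
    rw [lin_add_single, h1, per_int hper, hhper]
  · obtain ⟨u, hu⟩ := hnc
    refine ⟨u / m, 0, ?_⟩
    have h1 : HasDerivAt (fun v => wavePot f h m k v 0) (deriv f u * m) (u / m) := by
      unfold wavePot
      have h2 : (m : ℝ) * (u / m) - ∑ i, (k i : ℝ) * (0 : Fin n → ℝ) i = u := by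
        simp only [Pi.zero_apply, mul_zero, Finset.sum_const_zero, sub_zero]
        field_simp
      have h3 : HasDerivAt (fun v : ℝ => (m : ℝ) * v - ∑ i, (k i : ℝ) * (0 : Fin n → ℝ) i) m
          (u / m) := by
        have := ((hasDerivAt_id' (u / m)).const_mul (m : ℝ)).sub_const
          (∑ i, (k i : ℝ) * (0 : Fin n → ℝ) i)
        simpa using this
      have h4 : HasDerivAt f (deriv f u)
          ((m : ℝ) * (u / m) - ∑ i, (k i : ℝ) * (0 : Fin n → ℝ) i) := by
        rw [h2]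
        exact ((hf.differentiable (by simp)) u).hasDerivAt
      exact (h4.comp (u / m) h3).add_const (h 0)
    rw [h1.deriv]
    exact mul_ne_zero hu hm'

end Pool.Agent.Results.MP_9251a8_an.PlaneWaveFoliations
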